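import Pool.Agent.H947R2.TP.Stubs

/-! Task E2: the scaled centres separate. -/

set_option autoImplicit false

open MeasureTheory Filter Topology Set
open scoped ENNReal

namespace H947TP

theorem E2 (hE1 : St_E1) (hP1 : St_P1) : St_E2 := by
  intro D n b f δ ε s hf hcnt hδ hδ1 hε hεδ hD hn hs Z Z' hZ
  have hs0 : 0 < s := by
    by_contra h
    push Not at h
    nlinarith
  have hs1 : s ≤ 1 := by nlinarith
  have hs2 : 2 / 3 ≤ s := by nlinarith
  have habs : ∀ l, |s * tau b f Z l - s * tau b f Z' l| =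
      s * |tau b f Z l - tau b f Z' l| := fun l => by
    rw [← mul_sub, abs_mul, abs_of_pos hs0]
  have key : ∀ k, 1 ≤ |tau b f Z k - tau b f Z' k| →
      s / 2 ≤ Phi b δ k (fun l => s * tau b f Z l - s * tau b f Z' l) →
      Sep b δ ε (fun l => s * tau b f Z l - s * tau b f Z' l) := by
    intro k h1 h2
    refine ⟨k, ?_⟩
    unfold Nk
    simp only
    rw [habs]
    have h3 : s ≤ s * |tau b f Z k - tau b f Z' k| := le_mul_of_one_le_right hs0.le h1
    have h4 : ε * (s / 2) ≤ ε * Phi b δ k (fun l => s * tau b f Z l - s * tau b f Z' l) :=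
      mul_le_mul_of_nonneg_left h2 hε.le
    linarith
  rcases hE1 D n b f hf Z Z' hZ with ⟨l, hl⟩ | ⟨k, l, hkl, hk, hl⟩ | ⟨k, j, hj, hk, hl⟩
  · refine ⟨l, ?_⟩
    unfold Nk
    simp only
    rw [habs]
    have h1 := (hP1 D n b δ l hδ hδ1 hD hn).1 (fun l => s * tau b f Z l - s * tau b f Z' l)
    have h2 : s * (3 / 2) ≤ s * |tau b f Z l - tau b f Z' l| := mul_le_mul_of_nonneg_left hl hs0.le
    have h3 := mul_nonneg hε.le h1
    linarith
  · refine key k hk ?_
    have h1 := (hP1 D n b δ k hδ hδ1 hD hn).2.2.2.2.2.2.2.1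
      (fun l => s * tau b f Z l - s * tau b f Z' l) l hkl.symm
    refine le_trans ?_ h1
    rw [habs, le_div_iff₀ hδ]
    have h3 : s ≤ s * |tau b f Z l - tau b f Z' l| := le_mul_of_one_le_right hs0.le hl
    nlinarith
  · refine key k hk ?_
    have h1 := (hP1 D n b δ k hδ hδ1 hD hn).2.2.2.2.2.2.1
      (fun l => s * tau b f Z l - s * tau b f Z' l) j hj
    refine le_trans ?_ h1
    unfold avg
    have hc : (0 : ℝ) < cnt b j := by exact_mod_cast hcnt j
    rw [le_div_iff₀ hc]
    unfold cnt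
    rw [mul_comm, ← nsmul_eq_mul, ← Finset.sum_const]
    refine Finset.sum_le_sum fun l hl' => ?_
    rw [habs]
    have := hl l (Finset.mem_filter.1 hl').2
    nlinarith

end H947TP
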