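import Pool.Agent.H947R2.TP.Stubs

/-! Task L1: the set `F` for one group. -/

set_option autoImplicit false

open MeasureTheory Filter Topology Set
open scoped ENNReal

namespace H947TP

/-- the half-open cube at `v` -/
def L1Q {D : ℕ} (v : Fin D → ℝ) : Set (Fin D → ℝ) := Set.pi univ fun i => Ico (v i) (v i + 1)

theorem L1Q_mem {D : ℕ} (v x : Fin D → ℝ) : x ∈ L1Q v ↔ ∀ i, v i ≤ x i ∧ x i < v i + 1 := by
  simp [L1Q]

theorem L1Q_meas {D : ℕ} (v : Fin D → ℝ) : MeasurableSet (L1Q v) :=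
  MeasurableSet.univ_pi fun _ => measurableSet_Ico

theorem L1Q_vol {D : ℕ} : volume (L1Q (0 : Fin D → ℝ)) = 1 := by
  unfold L1Q
  rw [Real.volume_pi_Ico]
  simp

theorem L1_side {t : ℝ} (ht : |t| < 1) : min 1 (t + 1) - max 0 t = 1 - |t| := by
  rcases le_or_gt 0 t with h | h
  · rw [abs_of_nonneg h, min_eq_left (by linarith), max_eq_right h]
  · rw [abs_of_neg h, min_eq_right (by linarith), max_eq_left h.le]
    ring

theorem L1_inter {D : ℕ} (v : Fin D → ℝ) (hv : ∀ l, |v l| < 1) :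
    volume (L1Q (0 : Fin D → ℝ) ∩ L1Q v) = ENNReal.ofReal (∏ l, (1 - |v l|)) := by
  have e : L1Q (0 : Fin D → ℝ) ∩ L1Q v =
      Set.pi univ fun l => Ico (max 0 (v l)) (min 1 (v l + 1)) := by
    ext x
    rw [mem_inter_iff, L1Q_mem, L1Q_mem, Set.mem_univ_pi]
    simp only [Pi.zero_apply, zero_add, mem_Ico, max_le_iff, lt_min_iff]
    constructor
    · rintro ⟨h1, h2⟩ i
      exact ⟨⟨(h1 i).1, (h2 i).1⟩, (h1 i).2, (h2 i).2⟩
    · intro h
      exact ⟨fun i => ⟨(h i).1.1, (h i).2.1⟩, fun i => ⟨(h i).1.2, (h i).2.2⟩⟩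
  rw [e, Real.volume_pi_Ico, ENNReal.ofReal_prod_of_nonneg]
  · refine Finset.prod_congr rfl fun l _ => ?_
    rw [L1_side (hv l)]
  · intro l _
    linarith [hv l]

/-- separated groups have finitely many points in the unit cube -/
theorem L1_finite {D : ℕ} (Λ : AddSubgroup (Fin D → ℝ)) {ρ : ℝ} (hρ : 0 < ρ)
    (h : ∀ v ∈ Λ, v ≠ 0 → ∃ i, ρ ≤ |v i|) : {v | v ∈ Λ ∧ ∀ l, |v l| < 1}.Finite := by
  obtain ⟨M, hM⟩ := exists_nat_gt (2 / ρ + 1)
  refine Set.Finite.of_finite_image (f := fun (v : Fin D → ℝ) (i : Fin D) => ⌊v i * (2 / ρ)⌋) ?_ ?_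
  · refine (Set.finite_Icc (fun _ : Fin D => -(M : ℤ)) (fun _ => (M : ℤ))).subset ?_
    rintro _ ⟨v, ⟨-, hv⟩, rfl⟩
    have hpos : 0 < 2 / ρ := by positivity
    refine ⟨fun i => ?_, fun i => ?_⟩
    · have h1 := (abs_lt.1 (hv i)).1
      change -(M : ℤ) ≤ ⌊v i * (2 / ρ)⌋
      rw [Int.le_floor]
      push_cast
      nlinarith
    · have h1 := (abs_lt.1 (hv i)).2
      have h2 : (⌊v i * (2 / ρ)⌋ : ℝ) ≤ M := by
        have := Int.floor_le (v i * (2 / ρ))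
        nlinarith
      exact_mod_cast h2
  · rintro v ⟨hv, -⟩ w ⟨hw, -⟩ hvw
    by_contra hne
    obtain ⟨i, hi⟩ := h (v - w) (Λ.sub_mem hv hw) (sub_ne_zero.2 hne)
    have h1 := congrFun hvw i
    simp only at h1
    have h2 := Int.abs_sub_lt_one_of_floor_eq_floor h1
    rw [← sub_mul, abs_mul, abs_of_pos (by positivity : 0 < 2 / ρ)] at h2
    rw [Pi.sub_apply] at hi
    have h3 : ρ * (2 / ρ) ≤ |v i - w i| * (2 / ρ) :=
      mul_le_mul_of_nonneg_right hi (by positivity)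
    have h4 : ρ * (2 / ρ) = 2 := by field_simp
    linarith

theorem L1 (hP1 : St_P1) : St_L1 := by
  intro D n b δ ε Λ hδ hδ1 hε hε1 hD hn hsep P hP
  have hΦ0 : ∀ k w, 0 ≤ Phi b δ k w := fun k => (hP1 D n b δ k hδ hδ1 hD hn).1
  have hΦ1 : ∀ k w, (∀ i, |w i| ≤ 1) → Phi b δ k w ≤ 1 := fun k =>
    (hP1 D n b δ k hδ hδ1 hD hn).2.1
  have hΦn : ∀ k w, Phi b δ k (-w) = Phi b δ k w := fun k =>
    (hP1 D n b δ k hδ hδ1 hD hn).2.2.1
  have hbig : ∀ k (v : Fin D → ℝ), (∀ l, |v l| ≤ 1) → 1 ≤ Nk b δ ε k v → 1 - ε ≤ |v k| := by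
    intro k v hv h
    unfold Nk at h
    have h1 := hΦ1 k v hv
    nlinarith
  have hdisc : ∀ v ∈ Λ, v ≠ 0 → ∃ i, 1 - ε ≤ |v i| := by
    intro v hv h0
    by_cases h : ∀ l, |v l| ≤ 1
    · obtain ⟨k, hk⟩ := hsep v hv h0
      exact ⟨k, hbig k v h hk⟩
    · push Not at h
      obtain ⟨l, hl⟩ := h
      exact ⟨l, by linarith⟩
  have hfin : P.Finite := by
    refine (L1_finite Λ (by linarith : (0 : ℝ) < 1 - ε) hdisc).subset ?_
    rw [hP]
    rintro v ⟨h1, h2, -⟩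
    exact ⟨h1, h2⟩
  have hQ0 : L1Q (0 : Fin D → ℝ) = {x | ∀ i, 0 ≤ x i ∧ x i < 1} := by
    ext x
    rw [L1Q_mem]
    simp
  have htr : ∀ v : Fin D → ℝ, ∀ F : Set (Fin D → ℝ), F ⊆ L1Q 0 → tr v F ⊆ L1Q v := by
    rintro v F hF _ ⟨y, hy, rfl⟩
    rw [L1Q_mem]
    intro i
    have := (L1Q_mem 0 y).1 (hF hy) i
    simp only [Pi.zero_apply, zero_add] at this
    simp only [Pi.add_apply]
    constructor <;> linarith [this.1, this.2]
  obtain ⟨F, hF⟩ : ∃ F : Set (Fin D → ℝ), F = L1Q 0 \ ⋃ v ∈ P, L1Q v := ⟨_, rfl⟩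
  have hFQ : F ⊆ L1Q 0 := by rw [hF]; exact diff_subset
  refine ⟨hfin, F, ?_, ?_, ?_, ?_, ?_⟩
  · rw [hF]
    exact (L1Q_meas 0).diff (hfin.measurableSet_biUnion fun v _ => L1Q_meas v)
  · rw [← hQ0]; exact hFQ
  · intro x hx
    rw [hF]
    refine ⟨?_, ?_⟩
    · rw [hQ0]
      exact fun i => ⟨(hx i).1, by linarith [(hx i).2]⟩
    · intro hmem
      rw [mem_iUnion₂] at hmem
      obtain ⟨v, hv, hxv⟩ := hmem
      rw [hP] at hv
      obtain ⟨-, h1, k, hk, hk2⟩ := hv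
      have h3 := hbig k v (fun l => (h1 l).le) hk2
      rw [abs_of_pos hk] at h3
      have h4 := ((L1Q_mem v x).1 hxv k).1
      linarith [(hx k).2]
  · intro v hv h0
    rw [Set.disjoint_left]
    rintro x hx ⟨y, hy, hxy⟩
    have hxy' : x = v + y := hxy.symm
    have hxQ := (L1Q_mem 0 x).1 (hFQ hx)
    have hyQ := (L1Q_mem 0 y).1 (hFQ hy)
    simp only [Pi.zero_apply, zero_add] at hxQ hyQ
    have hxi : ∀ l, x l = v l + y l := fun l => by rw [hxy']; rfl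
    have hlt : ∀ l, |v l| < 1 := by
      intro l
      have h1 := hxi l
      rw [abs_lt]
      constructor <;> linarith [(hxQ l).1, (hxQ l).2, (hyQ l).1, (hyQ l).2]
    obtain ⟨k, hk⟩ := hsep v hv h0
    have hk2 := hbig k v (fun l => (hlt l).le) hk
    have hk0 : v k ≠ 0 := by
      intro h
      rw [h, abs_zero] at hk2
      linarith
    rcases lt_or_gt_of_ne hk0 with hneg | hpos
    · have hmem : -v ∈ P := by
        rw [hP]
        refine ⟨Λ.neg_mem hv, fun l => ?_, k, ?_, ?_⟩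
        · rw [Pi.neg_apply, abs_neg]; exact hlt l
        · rw [Pi.neg_apply]; linarith
        · unfold Nk at hk ⊢
          rw [Pi.neg_apply, abs_neg, hΦn]
          exact hk
      rw [hF] at hy
      apply hy.2
      rw [mem_iUnion₂]
      refine ⟨-v, hmem, ?_⟩
      rw [L1Q_mem]
      intro i
      have h1 := hxi i
      rw [Pi.neg_apply]
      constructor <;> linarith [(hxQ i).1, (hxQ i).2]
    · have hmem : v ∈ P := by
        rw [hP]
        exact ⟨hv, hlt, k, hpos, hk⟩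
      rw [hF] at hx
      apply hx.2
      rw [mem_iUnion₂]
      refine ⟨v, hmem, ?_⟩
      rw [L1Q_mem]
      intro i
      have h1 := hxi i
      constructor <;> linarith [(hyQ i).1, (hyQ i).2]
  · have e1 : F = L1Q 0 \ ⋃ v ∈ hfin.toFinset, (L1Q 0 ∩ L1Q v) := by
      rw [hF]
      ext x
      simp only [mem_diff, mem_iUnion₂, Set.Finite.mem_toFinset, mem_inter_iff, not_exists]
      constructor
      · rintro ⟨h1, h2⟩
        exact ⟨h1, fun v hv h3 => h2 v hv h3.2⟩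
      · rintro ⟨h1, h2⟩
        exact ⟨h1, fun v hv h3 => h2 v hv ⟨h1, h3⟩⟩
    have hnn : ∀ v ∈ hfin.toFinset, 0 ≤ ∏ l, (1 - |v l|) := by
      intro v hv
      rw [Set.Finite.mem_toFinset, hP] at hv
      exact Finset.prod_nonneg fun l _ => by linarith [hv.2.1 l]
    have h1 : volume (⋃ v ∈ hfin.toFinset, (L1Q (0 : Fin D → ℝ) ∩ L1Q v)) ≤
        ENNReal.ofReal (∑ v ∈ hfin.toFinset, ∏ l, (1 - |v l|)) := by
      refine (measure_biUnion_finset_le _ _).trans ?_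
      rw [ENNReal.ofReal_sum_of_nonneg hnn]
      refine Finset.sum_le_sum fun v hv => ?_
      rw [Set.Finite.mem_toFinset, hP] at hv
      rw [L1_inter v hv.2.1]
    rw [finsum_mem_eq_finite_toFinset_sum _ hfin,
      ENNReal.ofReal_sub _ (Finset.sum_nonneg hnn), ENNReal.ofReal_one, e1]
    calc 1 - ENNReal.ofReal (∑ v ∈ hfin.toFinset, ∏ l, (1 - |v l|))
        ≤ volume (L1Q (0 : Fin D → ℝ)) -
          volume (⋃ v ∈ hfin.toFinset, (L1Q (0 : Fin D → ℝ) ∩ L1Q v)) := by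
          rw [L1Q_vol]
          exact tsub_le_tsub_left h1 _
      _ ≤ _ := le_measure_diff

end H947TP
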